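import Pool.Agent.PRT.StmtsA

/-!
# The chord lemma (row CHD of squad PRT)

Problem MP_b2962a_an.
-/

set_option autoImplicit false

namespace Pool.Agent.PRT.H76

open Set MeasureTheory Topology Pool.Agent.PRT
open scoped ContDiff

theorem no_per (G : E ≃ₜ E) (w : E) (C : ℝ) (h : Hm G w C) (n : ℤ) (hn : n ≠ 0) (z : E) :
    (G ^ n) z ≠ z := by
  intro hz
  have h1 : ∀ m : ℕ, (G ^ (n * (m : ℤ))) z = z := by
    intro m
    induction m with
    | zero => simp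
    | succ m ih =>
      have e : n * ((m + 1 : ℕ) : ℤ) = n * m + n := by push_cast; ring
      rw [e, zpow_add, Homeomorph.mul_apply, hz, ih]
  have hw : 0 < ‖w‖ := norm_pos_iff.2 h.w0
  obtain ⟨m, hm⟩ := exists_nat_gt (C / ‖w‖)
  have h2 := h.dev (n * m) z
  rw [h1, sub_self, zero_sub, norm_neg, norm_smul, Real.norm_eq_abs] at h2
  have h3 : (m : ℝ) ≤ |((n * (m : ℤ) : ℤ) : ℝ)| := by
    push_cast
    rw [abs_mul]
    have h4 : (1 : ℝ) ≤ |(n : ℝ)| := by exact_mod_cast Int.one_le_abs hn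
    have h5 : |(m : ℝ)| = m := abs_of_nonneg (Nat.cast_nonneg m)
    rw [h5]
    nlinarith [(Nat.cast_nonneg m : (0 : ℝ) ≤ m)]
  rw [div_lt_iff₀ hw] at hm
  nlinarith

/-- the line built from a chord -/
noncomputable def LL (G : E ≃ₜ E) (i : ℕ) (e : ℝ → E) (x : ℝ) : E :=
  (G ^ ((i : ℤ) * ⌊x⌋)) (e (Int.fract x))

theorem ll_on (G : E ≃ₜ E) (i : ℕ) (e : ℝ → E) (he : e 1 = (G ^ i) (e 0)) (n : ℤ) (x : ℝ)
    (h0 : (n : ℝ) ≤ x) (h1 : x ≤ n + 1) : LL G i e x = (G ^ ((i : ℤ) * n)) (e (x - n)) := by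
  rcases lt_or_eq_of_le h1 with h | h
  · have hf : ⌊x⌋ = n := Int.floor_eq_iff.2 ⟨h0, h⟩
    unfold LL
    rw [Int.fract, hf]
  · have hf : ⌊x⌋ = n + 1 := by
      rw [h]
      have : ((n : ℝ) + 1) = ((n + 1 : ℤ) : ℝ) := by push_cast; ring
      rw [this, Int.floor_intCast]
    unfold LL
    rw [Int.fract, hf]
    have e1 : x - ((n + 1 : ℤ) : ℝ) = 0 := by rw [h]; push_cast; ring
    have e2 : x - (n : ℝ) = 1 := by rw [h]; ring
    rw [e1, e2, he, mul_add, mul_one, zpow_add, Homeomorph.mul_apply, zpow_natCast]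

theorem ll_cont (G : E ≃ₜ E) (i : ℕ) (e : ℝ → E) (hc : Continuous e) (he : e 1 = (G ^ i) (e 0)) :
    Continuous (LL G i e) := by
  have h1 : ∀ n : ℤ, ContinuousOn (LL G i e) (Icc (n : ℝ) (n + 1)) := by
    intro n
    have h2 : ContinuousOn (fun x : ℝ => (G ^ ((i : ℤ) * n)) (e (x - n))) (Icc (n : ℝ) (n + 1)) := by
      apply Continuous.continuousOn
      exact (G ^ ((i : ℤ) * n)).continuous.comp (hc.comp (continuous_id.sub continuous_const))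
    exact h2.congr (fun x hx => ll_on G i e he n x hx.1 hx.2)
  rw [continuous_iff_continuousAt]
  intro x
  set n := ⌊x + 1 / 2⌋ with hn
  have a1 : (n : ℝ) ≤ x + 1 / 2 := Int.floor_le _
  have a2 : x + 1 / 2 < n + 1 := Int.lt_floor_add_one _
  have h3 : ContinuousOn (LL G i e) (Icc ((n - 1 : ℤ) : ℝ) ((n - 1 : ℤ) + 1) ∪
      Icc (n : ℝ) (n + 1)) :=
    ContinuousOn.union_of_isClosed (h1 (n - 1)) (h1 n) isClosed_Icc isClosed_Icc
  apply h3.continuousAt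
  have h4 : Icc ((n : ℝ) - 1) (n + 1) ⊆ Icc ((n - 1 : ℤ) : ℝ) ((n - 1 : ℤ) + 1) ∪
      Icc (n : ℝ) (n + 1) := by
    intro y hy
    push_cast
    rcases le_total y n with h | h
    · left
      exact ⟨hy.1, by linarith⟩
    · right
      exact ⟨h, hy.2⟩
  exact Filter.mem_of_superset (Icc_mem_nhds (by linarith) (by linarith)) h4

theorem ll_step (G : E ≃ₜ E) (i : ℕ) (e : ℝ → E) (x : ℝ) :
    LL G i e (x + 1) = (G ^ i) (LL G i e x) := by
  unfold LL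
  rw [Int.floor_add_one, Int.fract_add_one, mul_add, mul_one, add_comm, zpow_add,
    Homeomorph.mul_apply, zpow_natCast]

/-- a minimal chord -/
theorem min_chord (G : E ≃ₜ E) (w : E) (C : ℝ) (h : Hm G w C) (c : ℝ → E) (hc : Continuous c)
    (k : ℕ) (hk : 1 ≤ k) (s : ℝ) (hs : s ∈ Icc (0 : ℝ) 1) (t : ℝ) (ht : t ∈ Icc (0 : ℝ) 1)
    (hst : c t = (G ^ k) (c s)) :
    ∃ s ∈ Icc (0 : ℝ) 1, ∃ t ∈ Icc (0 : ℝ) 1, ∃ i : ℕ, 1 ≤ i ∧ c t = (G ^ i) (c s) ∧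
      ∀ s' ∈ Icc (0 : ℝ) 1, ∀ t' ∈ Icc (0 : ℝ) 1, ∀ j : ℕ, 1 ≤ j → c t' = (G ^ j) (c s') →
        |t - s| ≤ |t' - s'| := by
  have hw : 0 < ‖w‖ := norm_pos_iff.2 h.w0
  have hI : IsCompact (Icc (0 : ℝ) 1 ×ˢ Icc (0 : ℝ) 1) := isCompact_Icc.prod isCompact_Icc
  have hcc : Continuous (fun p : ℝ × ℝ => c p.2 - c p.1) :=
    (hc.comp continuous_snd).sub (hc.comp continuous_fst)
  obtain ⟨D, hD⟩ := hI.exists_bound_of_continuousOn hcc.continuousOn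
  obtain ⟨K, hK⟩ := exists_nat_gt ((C + D) / ‖w‖)
  have hbd : ∀ s' ∈ Icc (0 : ℝ) 1, ∀ t' ∈ Icc (0 : ℝ) 1, ∀ j : ℕ, c t' = (G ^ j) (c s') →
      j ≤ K := by
    intro s' hs' t' ht' j hj
    by_contra hlt
    have hlt' : (K : ℝ) < j := by exact_mod_cast not_le.1 hlt
    have h1 := h.dev (j : ℤ) (c s')
    rw [zpow_natCast, ← hj] at h1
    have h2 := hD (s', t') ⟨hs', ht'⟩
    have h3 : ‖((j : ℤ) : ℝ) • w‖ ≤ ‖c t' - c s'‖ + ‖c t' - c s' - ((j : ℤ) : ℝ) • w‖ := by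
      have e : ((j : ℤ) : ℝ) • w = (c t' - c s') - (c t' - c s' - ((j : ℤ) : ℝ) • w) := by abel
      calc ‖((j : ℤ) : ℝ) • w‖ = ‖(c t' - c s') - (c t' - c s' - ((j : ℤ) : ℝ) • w)‖ := by
            rw [← e]
        _ ≤ _ := norm_sub_le _ _
    rw [norm_smul, Real.norm_eq_abs] at h3
    have h4 : |((j : ℤ) : ℝ)| = j := by
      rw [Int.cast_natCast]
      exact abs_of_nonneg (Nat.cast_nonneg j)
    rw [h4] at h3
    have h5 : ‖c t' - c s'‖ ≤ D := h2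
    rw [div_lt_iff₀ hw] at hK
    nlinarith
  let S : Set (ℝ × ℝ) := (Icc (0 : ℝ) 1 ×ˢ Icc (0 : ℝ) 1) ∩
    ⋃ j ∈ Finset.Icc 1 K, {p : ℝ × ℝ | c p.2 = (G ^ j) (c p.1)}
  have hS : IsCompact S := by
    apply hI.inter_right
    apply Set.Finite.isClosed_biUnion (Finset.finite_toSet _)
    intro j _
    exact isClosed_eq (hc.comp continuous_snd) ((G ^ j).continuous.comp (hc.comp continuous_fst))
  have hmem : ∀ s' ∈ Icc (0 : ℝ) 1, ∀ t' ∈ Icc (0 : ℝ) 1, ∀ j : ℕ, 1 ≤ j →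
      c t' = (G ^ j) (c s') → (s', t') ∈ S := by
    intro s' hs' t' ht' j hj hj'
    refine ⟨⟨hs', ht'⟩, ?_⟩
    simp only [Set.mem_iUnion, Finset.mem_Icc]
    exact ⟨j, ⟨hj, hbd s' hs' t' ht' j hj'⟩, hj'⟩
  have hne : S.Nonempty := ⟨(s, t), hmem s hs t ht k hk hst⟩
  have hf : ContinuousOn (fun p : ℝ × ℝ => |p.2 - p.1|) S :=
    ((continuous_snd.sub continuous_fst).abs).continuousOn
  obtain ⟨p, hp, hmin⟩ := hS.exists_isMinOn hne hf
  obtain ⟨⟨p1, p2⟩, p3⟩ := hp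
  simp only [Set.mem_iUnion, Finset.mem_Icc] at p3
  obtain ⟨i, ⟨i1, -⟩, hi⟩ := p3
  refine ⟨p.1, p1, p.2, p2, i, i1, hi, fun s' hs' t' ht' j hj hj' => ?_⟩
  exact hmin (hmem s' hs' t' ht' j hj hj')

theorem chd (lor : LorStmt) : ChdStmt := by
  intro G w C hm c hc _ hfree k hk s0 hs0 t0 ht0 hst0
  obtain ⟨s, hs, t, ht, i, i1, hst, hmin⟩ := min_chord G w C hm c hc k hk s0 hs0 t0 ht0 hst0
  have hne : s ≠ t := by
    rintro rfl
    have h1 := no_per G w C hm (i : ℤ) (by omega) (c s)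
    rw [zpow_natCast] at h1
    exact h1 hst.symm
  have hi2 : 2 ≤ i := by
    by_contra h
    have h1 : i = 1 := by omega
    rw [h1, pow_one] at hst
    exact hfree s hs t ht hst
  have hpos : 0 < |t - s| := abs_pos.2 (sub_ne_zero.2 (Ne.symm hne))
  let e : ℝ → E := fun τ => c (s + τ * (t - s))
  have hec : Continuous e := hc.comp (by fun_prop)
  have he : e 1 = (G ^ i) (e 0) := by
    show c (s + 1 * (t - s)) = (G ^ i) (c (s + 0 * (t - s)))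
    have e1 : s + 1 * (t - s) = t := by ring
    have e2 : s + 0 * (t - s) = s := by ring
    rw [e1, e2, hst]
  have hln : Ln G w C (LL G i e) i :=
    { hm := hm
      cont := ll_cont G i e hec he
      i2 := hi2
      step := fun x => ll_step G i e x }
  obtain ⟨a, b, hab⟩ := lor G w C (LL G i e) i hln
  -- membership
  have hin : ∀ τ : ℝ, 0 ≤ τ → τ < 1 → s + τ * (t - s) ∈ Icc (0 : ℝ) 1 := by
    intro τ h0 h1
    constructor
    · nlinarith [hs.1, ht.1]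
    · nlinarith [hs.2, ht.2]
  have hno : ∀ σ τ : ℝ, 0 ≤ σ → σ < 1 → 0 ≤ τ → τ < 1 → ∀ j : ℕ, 1 ≤ j → e τ ≠ (G ^ j) (e σ) := by
    intro σ τ a0 a1 b0 b1 j hj hj'
    have h1 := hmin _ (hin σ a0 a1) _ (hin τ b0 b1) j hj hj'
    have e1 : s + τ * (t - s) - (s + σ * (t - s)) = (τ - σ) * (t - s) := by ring
    rw [e1, abs_mul] at h1
    have h2 : |τ - σ| < 1 := by
      rw [abs_lt]
      constructor <;> linarith
    nlinarith
  set j : ℤ := 1 + i * (⌊b⌋ - ⌊a⌋) with hj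
  have hrel : e (Int.fract a) = (G ^ j) (e (Int.fract b)) := by
    unfold LL at hab
    have h1 : (G ^ (-((i : ℤ) * ⌊a⌋))) ((G ^ ((i : ℤ) * ⌊a⌋)) (e (Int.fract a))) =
        (G ^ (-((i : ℤ) * ⌊a⌋))) (G ((G ^ ((i : ℤ) * ⌊b⌋)) (e (Int.fract b)))) := by rw [hab]
    rw [← Homeomorph.mul_apply, ← zpow_add, neg_add_cancel, zpow_zero] at h1
    have h2 : j = -((i : ℤ) * ⌊a⌋) + (1 + (i : ℤ) * ⌊b⌋) := by rw [hj]; ring
    rw [h2, zpow_add, zpow_add, zpow_one, Homeomorph.mul_apply, Homeomorph.mul_apply]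
    exact h1
  have hj0 : j ≠ 0 := by
    intro h0
    have h1 : (i : ℤ) ∣ 1 := ⟨-(⌊b⌋ - ⌊a⌋), by rw [hj] at h0; linarith⟩
    have h2 : (i : ℤ) ≤ 1 := Int.le_of_dvd one_pos h1
    omega
  rcases lt_or_gt_of_ne hj0 with hneg | hpos'
  · obtain ⟨q, hq⟩ := Int.eq_ofNat_of_zero_le (by omega : 0 ≤ -j)
    apply hno (Int.fract a) (Int.fract b) (Int.fract_nonneg a) (Int.fract_lt_one a)
      (Int.fract_nonneg b) (Int.fract_lt_one b) q (by omega)
    rw [← zpow_natCast]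
    have hq' : ((q : ℕ) : ℤ) = -j := hq.symm
    rw [hq', hrel, ← Homeomorph.mul_apply, ← zpow_add, neg_add_cancel, zpow_zero]
    rfl
  · obtain ⟨q, hq⟩ := Int.eq_ofNat_of_zero_le hpos'.le
    apply hno (Int.fract b) (Int.fract a) (Int.fract_nonneg b) (Int.fract_lt_one b)
      (Int.fract_nonneg a) (Int.fract_lt_one a) q (by omega)
    rw [← zpow_natCast]
    have hq' : ((q : ℕ) : ℤ) = j := hq.symm
    rw [hq']
    exact hrel

end Pool.Agent.PRT.H76
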