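import Pool.Agent.PRT.StmtsD

/-!
# The Knothe map (row KNA of squad PRT)

Problem MP_b2962a_an.
-/

set_option autoImplicit false

namespace Pool.Agent.PRT.H76

open Set MeasureTheory Pool.Agent.PRT
open scoped ContDiff

theorem av_smooth (avm : AvmStmt) (f : E → ℝ) (hf : ContDiff ℝ ∞ f) : ContDiff ℝ ∞ (av f) := by
  have h := (avm f hf).1
  have h2 : ContDiff ℝ ∞ (fun x : ℝ => ((x, (0 : ℝ)) : E)) := by fun_prop
  exact h.comp h2

theorem av_ge (ρ : E → ℝ) (h : Dn ρ) (x : ℝ) : 1 / 2 ≤ av ρ x := by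
  have hc : Continuous (fun t : ℝ => ρ (x, t)) := h.sm.continuous.comp (by fun_prop)
  have h1 : ∫ _ in (0 : ℝ)..1, (1 / 2 : ℝ) ≤ ∫ t in (0 : ℝ)..1, ρ (x, t) :=
    intervalIntegral.integral_mono_on zero_le_one (by simp) (hc.intervalIntegrable 0 1)
      (fun t _ => h.lb _)
  have h2 : ∫ _ in (0 : ℝ)..1, (1 / 2 : ℝ) = 1 / 2 := by simp
  rw [h2] at h1
  exact h1

theorem per_x (ρ : E → ℝ) (h : Per ρ) (a : ℤ) (x t : ℝ) : ρ (x + a, t) = ρ (x, t) := by
  have h1 := h a 0 (x, t)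
  have e : ((x, t) : E) + iv a 0 = (x + a, t) := by
    unfold iv
    ext <;> simp
  rwa [e] at h1

theorem per_y (ρ : E → ℝ) (h : Per ρ) (b : ℤ) (x t : ℝ) : ρ (x, t + b) = ρ (x, t) := by
  have h1 := h 0 b (x, t)
  have e : ((x, t) : E) + iv 0 b = (x, t + b) := by
    unfold iv
    ext <;> simp
  rwa [e] at h1

theorem av_per (ρ : E → ℝ) (h : Per ρ) (a : ℤ) (x : ℝ) : av ρ (x + a) = av ρ x := by
  unfold av
  simp only [per_x ρ h]

theorem int_per (f : ℝ → ℝ) (hc : Continuous f) (hp : ∀ (a : ℤ) (x : ℝ), f (x + a) = f x)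
    (x : ℝ) (a : ℤ) :
    ∫ s in (0 : ℝ)..(x + a), f s = (∫ s in (0 : ℝ)..x, f s) + a * ∫ s in (0 : ℝ)..1, f s := by
  have hP : Function.Periodic f 1 := by
    intro y
    have := hp 1 y
    simpa using this
  have hi : ∀ t₁ t₂ : ℝ, IntervalIntegrable f volume t₁ t₂ := fun _ _ => hc.intervalIntegrable _ _
  rw [← intervalIntegral.integral_add_adjacent_intervals (hi 0 x) (hi x (x + a))]
  have h1 := hP.intervalIntegral_add_zsmul_eq a x hi
  have e : x + a • (1 : ℝ) = x + a := by simp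
  rw [e] at h1
  rw [h1, hP.intervalIntegral_add_eq x 0, zero_add, zsmul_eq_mul]

theorem int_av (ρ : E → ℝ) (hc : Continuous ρ) : ∫ x in (0 : ℝ)..1, av ρ x = ∫ z in Q, ρ z := by
  unfold Q
  rw [Measure.volume_eq_prod, setIntegral_prod _
    (hc.continuousOn.integrableOn_compact (isCompact_Icc.prod isCompact_Icc)),
    intervalIntegral.integral_of_le zero_le_one, ← integral_Icc_eq_integral_Ioc]
  refine setIntegral_congr_fun measurableSet_Icc ?_
  intro x _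
  show av ρ x = _
  unfold av
  rw [intervalIntegral.integral_of_le zero_le_one, ← integral_Icc_eq_integral_Ioc]

/-- the primitive in `y` divided by the mean -/
noncomputable def hh (ρ : E → ℝ) (z : E) : ℝ := (∫ t in (0 : ℝ)..z.2, ρ (z.1, t)) / av ρ z.1

theorem k2_eq (ρ : E → ℝ) (z : E) : k2 ρ z = hh ρ z - av (hh ρ) z.1 + 1 / 2 := rfl

theorem hh_smooth (par : ParStmt) (avm : AvmStmt) (ρ : E → ℝ) (h : Dn ρ) :
    ContDiff ℝ ∞ (hh ρ) := by
  have h1 := (par ρ h.sm).1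
  have h2 := (avm ρ h.sm).1
  exact h1.div h2 (fun z => by
    have := av_ge ρ h z.1
    intro h0
    rw [h0] at this
    norm_num at this)

theorem prim_smooth (par : ParStmt) (avm : AvmStmt) (ρ : E → ℝ) (h : Dn ρ) :
    ContDiff ℝ ∞ (fun z : E => ∫ s in (0 : ℝ)..z.1, av ρ s) := by
  have h1 := av_smooth avm ρ h.sm
  have h2 : ContDiff ℝ ∞ (fun z : E => av ρ z.2) := h1.comp contDiff_snd
  have h3 := (par _ h2).1
  have h4 : ContDiff ℝ ∞ (fun z : E => (((0 : ℝ), z.1) : E)) := by fun_prop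
  exact h3.comp h4

theorem kn_smooth (par : ParStmt) (avm : AvmStmt) (ρ : E → ℝ) (h : Dn ρ) :
    ContDiff ℝ ∞ (kn ρ) := by
  unfold kn
  apply ContDiff.prodMk
  · unfold k1
    exact ((prim_smooth par avm ρ h).sub contDiff_const).add contDiff_const
  · have h1 := hh_smooth par avm ρ h
    have h2 := (avm _ h1).1
    have h3 : ContDiff ℝ ∞ (fun z : E => hh ρ z - av (hh ρ) z.1 + 1 / 2) :=
      (h1.sub h2).add contDiff_const
    exact h3

theorem hh_x (ρ : E → ℝ) (h : Per ρ) (a : ℤ) (x y : ℝ) : hh ρ (x + a, y) = hh ρ (x, y) := by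
  unfold hh
  simp only [per_x ρ h, av_per ρ h]

theorem hh_y (ρ : E → ℝ) (h : Dn ρ) (b : ℤ) (x y : ℝ) : hh ρ (x, y + b) = hh ρ (x, y) + b := by
  have hc : Continuous (fun t : ℝ => ρ (x, t)) := h.sm.continuous.comp (by fun_prop)
  have h1 := int_per (fun t : ℝ => ρ (x, t)) hc (fun b t => per_y ρ h.per b x t) y b
  have hA : av ρ x ≠ 0 := by
    have := av_ge ρ h x
    intro h0
    rw [h0] at this
    norm_num at this
  show (∫ t in (0 : ℝ)..(y + b), ρ (x, t)) / av ρ x = (∫ t in (0 : ℝ)..y, ρ (x, t)) / av ρ x + b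
  rw [h1]
  have e : (∫ t in (0 : ℝ)..1, ρ (x, t)) = av ρ x := rfl
  rw [e]
  field_simp

theorem kn_eqv (avm : AvmStmt) (ρ : E → ℝ) (h : Dn ρ) : Eqv (kn ρ) := by
  intro a b z
  have hc := (av_smooth avm ρ h.sm).continuous
  have e1 : k1 ρ (z.1 + a) = k1 ρ z.1 + a := by
    unfold k1
    rw [int_per (av ρ) hc (av_per ρ h.per) z.1 a, int_av ρ h.sm.continuous, h.one]
    ring
  have e2 : k2 ρ (z.1 + a, z.2 + b) = k2 ρ z + b := by
    rw [k2_eq, k2_eq]
    have e3 : hh ρ (z.1 + a, z.2 + b) = hh ρ z + b := by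
      rw [hh_x ρ h.per a, hh_y ρ h b]
    have e4 : av (hh ρ) (z.1 + a) = av (hh ρ) z.1 := by
      unfold av
      simp only [hh_x ρ h.per]
    show hh ρ (z.1 + a, z.2 + b) - av (hh ρ) (z.1 + a) + 1 / 2 = _
    rw [e3, e4]
    ring
  have e5 : z + iv a b = (z.1 + a, z.2 + b) := by
    unfold iv
    ext <;> simp
  rw [e5]
  show (k1 ρ (z.1 + a), k2 ρ (z.1 + a, z.2 + b)) = (k1 ρ z.1, k2 ρ z) + iv a b
  rw [e1, e2]
  unfold iv
  ext <;> simp

theorem kn_det (par : ParStmt) (avm : AvmStmt) (ρ : E → ℝ) (h : Dn ρ) (z : E) :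
    (fderiv ℝ (kn ρ) z).det = ρ z := by
  have hd : HasFDerivAt (kn ρ) (fderiv ℝ (kn ρ) z) z :=
    ((kn_smooth par avm ρ h).differentiable (by simp) z).hasFDerivAt
  have hA : av ρ z.1 ≠ 0 := by
    have := av_ge ρ h z.1
    intro h0
    rw [h0] at this
    norm_num at this
  -- direction (1, 0)
  have l1 : HasDerivAt (fun s : ℝ => ((s, z.2) : E)) ((1 : ℝ), (0 : ℝ)) z.1 :=
    (hasDerivAt_id z.1).prodMk (hasDerivAt_const z.1 z.2)
  have d1 : HasDerivAt (fun s : ℝ => kn ρ (s, z.2)) (fderiv ℝ (kn ρ) z (1, 0)) z.1 := by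
    have hd' : HasFDerivAt (kn ρ) (fderiv ℝ (kn ρ) z) ((fun s : ℝ => ((s, z.2) : E)) z.1) := hd
    exact hd'.comp_hasDerivAt z.1 l1
  have d1' : HasDerivAt (fun s : ℝ => k1 ρ s) (fderiv ℝ (kn ρ) z (1, 0)).1 z.1 := by
    have h1 : HasFDerivAt (fun p : E => p.1) (ContinuousLinearMap.fst ℝ ℝ ℝ) (kn ρ (z.1, z.2)) :=
      hasFDerivAt_fst
    exact h1.comp_hasDerivAt z.1 d1
  have p1 : HasDerivAt (fun s : ℝ => k1 ρ s) (av ρ z.1) z.1 := by
    have hc := (av_smooth avm ρ h.sm).continuous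
    have h1 : HasDerivAt (fun u : ℝ => ∫ x in (0 : ℝ)..u, av ρ x) (av ρ z.1) z.1 :=
      (hc.integral_hasStrictDerivAt 0 z.1).hasDerivAt
    exact (h1.sub_const _).add_const _
  have q1 : (fderiv ℝ (kn ρ) z (1, 0)).1 = av ρ z.1 := d1'.unique p1
  -- direction (0, 1)
  have l2 : HasDerivAt (fun s : ℝ => ((z.1, s) : E)) ((0 : ℝ), (1 : ℝ)) z.2 :=
    (hasDerivAt_const z.2 z.1).prodMk (hasDerivAt_id z.2)
  have d2 : HasDerivAt (fun s : ℝ => kn ρ (z.1, s)) (fderiv ℝ (kn ρ) z (0, 1)) z.2 := by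
    have hd' : HasFDerivAt (kn ρ) (fderiv ℝ (kn ρ) z) ((fun s : ℝ => ((z.1, s) : E)) z.2) := hd
    exact hd'.comp_hasDerivAt z.2 l2
  have p2 : HasDerivAt (fun s : ℝ => kn ρ (z.1, s)) (0, ρ z / av ρ z.1) z.2 := by
    have hc : Continuous (fun t : ℝ => ρ (z.1, t)) := h.sm.continuous.comp (by fun_prop)
    have h1 : HasDerivAt (fun u : ℝ => ∫ t in (0 : ℝ)..u, ρ (z.1, t)) (ρ (z.1, z.2)) z.2 :=
      (hc.integral_hasStrictDerivAt 0 z.2).hasDerivAt
    have h2 : HasDerivAt (fun u : ℝ => hh ρ (z.1, u) - av (hh ρ) z.1 + 1 / 2)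
        (ρ (z.1, z.2) / av ρ z.1) z.2 :=
      (((h1.div_const (av ρ z.1)).sub_const _).add_const _)
    exact (hasDerivAt_const z.2 (k1 ρ z.1)).prodMk h2
  have q2 : fderiv ℝ (kn ρ) z (0, 1) = (0, ρ z / av ρ z.1) := d2.unique p2
  rw [det_eq]
  unfold cr
  rw [q1, q2]
  simp only [mul_zero, sub_zero]
  field_simp

theorem kna (par : ParStmt) (avm : AvmStmt) : KnaStmt := by
  intro ρ h
  exact ⟨kn_smooth par avm ρ h, kn_eqv avm ρ h, kn_det par avm ρ h⟩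

end Pool.Agent.PRT.H76
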