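import Pool.Agent.PRT.StmtsC

/-!
# Super-Liouville rotation vectors (row SLV of squad PRT)

Problem MP_b2962a_an.
-/

set_option autoImplicit false

namespace Pool.Agent.PRT.H76

open Set MeasureTheory Pool.Agent.PRT
open scoped ContDiff

theorem fderiv_iter_le (F : E → E) (hF : ContDiff ℝ ∞ F) (B : ℝ)
    (hb : ∀ z, ‖fderiv ℝ F z‖ ≤ B) (hB : 1 ≤ B) (m : ℕ) : ∀ z, ‖fderiv ℝ (F^[m]) z‖ ≤ B ^ m := by
  have hd : ∀ m : ℕ, ContDiff ℝ ∞ (F^[m]) := by
    intro m
    induction m with
    | zero =>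
      rw [Function.iterate_zero]
      exact contDiff_id
    | succ m ih =>
      rw [Function.iterate_succ]
      exact ih.comp hF
  induction m with
  | zero =>
    intro z
    rw [Function.iterate_zero, pow_zero, fderiv_id]
    exact ContinuousLinearMap.norm_id_le
  | succ m ih =>
    intro z
    rw [Function.iterate_succ, pow_succ]
    have h1 : DifferentiableAt ℝ (F^[m]) (F z) := (hd m).differentiable (by simp) _
    have h2 : DifferentiableAt ℝ F z := hF.differentiable (by simp) _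
    rw [fderiv_comp z h1 h2]
    calc ‖(fderiv ℝ (F^[m]) (F z)).comp (fderiv ℝ F z)‖
        ≤ ‖fderiv ℝ (F^[m]) (F z)‖ * ‖fderiv ℝ F z‖ := ContinuousLinearMap.opNorm_comp_le _ _
      _ ≤ B ^ m * B := mul_le_mul (ih _) (hb z) (norm_nonneg _) (by positivity)

theorem slv (pbd : PbdStmt) : SlvStmt := by
  intro F w hF hE hne hex N L0
  obtain ⟨B0, hB0⟩ := pbd.2 F hF hE 1
  set B := max B0 1 with hBd
  have hB1 : 1 ≤ B := le_max_right _ _
  have hb : ∀ z, ‖fderiv ℝ F z‖ ≤ B := by
    intro z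
    have h := hB0 1 le_rfl le_rfl z
    rw [norm_iteratedFDeriv_one] at h
    exact h.trans (le_max_left _ _)
  set M := max L0 1 with hMd
  have hM1 : 1 ≤ M := le_max_right _ _
  have he : 1 ≤ Real.exp 1 := Real.one_le_exp (by norm_num)
  have hBe : 1 ≤ B * Real.exp 1 := one_le_mul_of_one_le_of_one_le hB1 he
  have hMBe : 1 ≤ M * (B * Real.exp 1) := one_le_mul_of_one_le_of_one_le hM1 hBe
  have hpos : 0 < M * (B * Real.exp 1) := by linarith
  obtain ⟨q, a, b, hq, hqab⟩ := hex ((N : ℝ) * Real.log (M * (B * Real.exp 1)))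
  have hq1 : 1 ≤ (B * Real.exp 1) ^ q := one_le_pow₀ hBe
  have hLq : (B * Real.exp 1) ^ q ≤ M * (B * Real.exp 1) ^ q :=
    le_mul_of_one_le_left (by positivity) hM1
  refine ⟨q, a, b, M * (B * Real.exp 1) ^ q, hq, ?_, ?_, ?_, ?_, ?_⟩
  · exact (le_max_left L0 1).trans (le_mul_of_one_le_right (by linarith) hq1)
  · have h1 : (q : ℝ) ≤ Real.exp 1 ^ q := by
      rw [← Real.exp_nat_mul, mul_one]
      have := Real.add_one_le_exp (q : ℝ)
      linarith
    have h2 : Real.exp 1 ^ q ≤ (B * Real.exp 1) ^ q :=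
      pow_le_pow_left₀ (by positivity) (le_mul_of_one_le_left (by positivity) hB1) q
    linarith
  · intro m hm z
    have h1 := fderiv_iter_le F hF B hb hB1 m z
    have h2 : B ^ m ≤ B ^ q := pow_le_pow_right₀ hB1 hm
    have h3 : B ^ q ≤ (B * Real.exp 1) ^ q :=
      pow_le_pow_left₀ (by linarith) (le_mul_of_one_le_right (by linarith) he) q
    linarith
  · rw [norm_pos_iff]
    exact sub_ne_zero.2 (hne q a b hq)
  · have h1 : M * (B * Real.exp 1) ^ q ≤ (M * (B * Real.exp 1)) ^ q := by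
      rw [mul_pow M]
      exact mul_le_mul_of_nonneg_right (le_self_pow₀ hM1 (by omega)) (by positivity)
    have h2 : (M * (B * Real.exp 1) ^ q) ^ N ≤ ((M * (B * Real.exp 1)) ^ q) ^ N :=
      pow_le_pow_left₀ (by positivity) h1 N
    have h3 : ((M * (B * Real.exp 1)) ^ q) ^ N =
        Real.exp ((N : ℝ) * Real.log (M * (B * Real.exp 1)) * q) := by
      rw [← pow_mul]
      have e : (N : ℝ) * Real.log (M * (B * Real.exp 1)) * q =
          ((q * N : ℕ) : ℝ) * Real.log (M * (B * Real.exp 1)) := by push_cast; ring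
      rw [e, Real.exp_nat_mul, Real.exp_log hpos]
    calc ‖(q : ℝ) • w - iv a b‖ * (M * (B * Real.exp 1) ^ q) ^ N
        ≤ Real.exp (-((N : ℝ) * Real.log (M * (B * Real.exp 1))) * q) *
          Real.exp ((N : ℝ) * Real.log (M * (B * Real.exp 1)) * q) := by
          rw [← h3]
          exact mul_le_mul hqab h2 (by positivity) (Real.exp_pos _).le
      _ = 1 := by
          rw [← Real.exp_add]
          have e : -((N : ℝ) * Real.log (M * (B * Real.exp 1))) * q +
            (N : ℝ) * Real.log (M * (B * Real.exp 1)) * q = 0 := by ring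
          rw [e, Real.exp_zero]

end Pool.Agent.PRT.H76
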